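import Pool.Agent.Helper29.OT.St

set_option autoImplicit false

namespace Pool.Agent.Helper79.OT

open Finset Pool.Agent.Helper14.FEM Pool.Agent.Helper3.EMK Pool.Agent.Helper29.TK Pool.Agent.Helper29.OT

/-- members containing `b` -/
theorem DF_deg {V : Type} [DecidableEq V] (A : Finset V) (m : ℕ) (hm : 1 ≤ m)
    (H : Finset (Finset V)) (hH : H ⊆ A.powersetCard m) (b : V) :
    #(H.filter fun R => b ∈ R) ≤ (#A - 1).choose (m - 1) := by
  by_cases hbA : b ∈ A
  · have h1 : #(H.filter fun R => b ∈ R) ≤ #((A.erase b).powersetCard (m - 1)) := by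
      apply Finset.card_le_card_of_injOn (fun R => R.erase b)
      · intro R hR
        have hR' := Finset.mem_filter.mp (Finset.mem_coe.mp hR)
        have h2 := Finset.mem_powersetCard.mp (hH hR'.1)
        apply Finset.mem_coe.mpr
        rw [Finset.mem_powersetCard]
        refine ⟨Finset.erase_subset_erase b h2.1, ?_⟩
        rw [Finset.card_erase_of_mem hR'.2, h2.2]
      · intro R hR R' hR' h
        have h1 := (Finset.mem_filter.mp (Finset.mem_coe.mp hR)).2
        have h2 := (Finset.mem_filter.mp (Finset.mem_coe.mp hR')).2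
        have h3 : R.erase b = R'.erase b := h
        rw [← Finset.insert_erase h1, ← Finset.insert_erase h2, h3]
    rw [Finset.card_powersetCard, Finset.card_erase_of_mem hbA] at h1
    exact h1
  · have h1 : (H.filter fun R => b ∈ R) = ∅ := by
      rw [Finset.filter_eq_empty_iff]
      intro R hR hb
      exact hbA ((Finset.mem_powersetCard.mp (hH hR)).1 hb)
    rw [h1, Finset.card_empty]
    exact Nat.zero_le _

/-- members containing `b` and `c` -/
theorem DF_codeg {V : Type} [DecidableEq V] (A : Finset V) (m : ℕ) (hm : 1 ≤ m)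
    (H : Finset (Finset V)) (hH : H ⊆ A.powersetCard m) (b c : V) (hbc : c ≠ b) :
    #(H.filter fun R => b ∈ R ∧ c ∈ R) * (#A - 1) ≤ (m - 1) * (#A - 1).choose (m - 1) := by
  rcases Finset.eq_empty_or_nonempty (H.filter fun R => b ∈ R ∧ c ∈ R) with h0 | ⟨R0, hR0⟩
  · rw [h0, Finset.card_empty, zero_mul]
    exact Nat.zero_le _
  · have hR0' := Finset.mem_filter.mp hR0
    have h2 := Finset.mem_powersetCard.mp (hH hR0'.1)
    have hbA : b ∈ A := h2.1 hR0'.2.1
    have hcA : c ∈ A := h2.1 hR0'.2.2
    have hm2 : 2 ≤ m := by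
      rw [← h2.2]
      exact Finset.one_lt_card.mpr ⟨b, hR0'.2.1, c, hR0'.2.2, hbc.symm⟩
    have hA2 : 2 ≤ #A := Finset.one_lt_card.mpr ⟨b, hbA, c, hcA, hbc.symm⟩
    have h1 : #(H.filter fun R => b ∈ R ∧ c ∈ R) ≤ #(((A.erase b).erase c).powersetCard (m - 2)) := by
      apply Finset.card_le_card_of_injOn (fun R => (R.erase b).erase c)
      · intro R hR
        have hR' := Finset.mem_filter.mp (Finset.mem_coe.mp hR)
        have h3 := Finset.mem_powersetCard.mp (hH hR'.1)
        apply Finset.mem_coe.mpr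
        rw [Finset.mem_powersetCard]
        refine ⟨Finset.erase_subset_erase c (Finset.erase_subset_erase b h3.1), ?_⟩
        have hc : c ∈ R.erase b := Finset.mem_erase.mpr ⟨hbc, hR'.2.2⟩
        show #((R.erase b).erase c) = m - 2
        rw [Finset.card_erase_of_mem hc, Finset.card_erase_of_mem hR'.2.1, h3.2]
        omega
      · intro R hR R' hR' h
        have h1 := (Finset.mem_filter.mp (Finset.mem_coe.mp hR)).2
        have h2 := (Finset.mem_filter.mp (Finset.mem_coe.mp hR')).2
        have h3 : (R.erase b).erase c = (R'.erase b).erase c := h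
        have hc : c ∈ R.erase b := Finset.mem_erase.mpr ⟨hbc, h1.2⟩
        have hc' : c ∈ R'.erase b := Finset.mem_erase.mpr ⟨hbc, h2.2⟩
        rw [← Finset.insert_erase h1.1, ← Finset.insert_erase h2.1, ← Finset.insert_erase hc,
          ← Finset.insert_erase hc', h3]
    have hc : c ∈ A.erase b := Finset.mem_erase.mpr ⟨hbc, hcA⟩
    rw [Finset.card_powersetCard, Finset.card_erase_of_mem hc, Finset.card_erase_of_mem hbA] at h1
    obtain ⟨N, hN⟩ : ∃ N, #A = N + 2 := ⟨#A - 2, by omega⟩
    obtain ⟨q, hq⟩ : ∃ q, m = q + 2 := ⟨m - 2, by omega⟩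
    rw [hN, hq] at h1 ⊢
    have e1 : N + 2 - 1 - 1 = N := by omega
    have e2 : q + 2 - 2 = q := by omega
    have e3 : N + 2 - 1 = N + 1 := by omega
    have e4 : q + 2 - 1 = q + 1 := by omega
    rw [e1, e2] at h1
    rw [e3, e4]
    calc #(H.filter fun R => b ∈ R ∧ c ∈ R) * (N + 1) ≤ N.choose q * (N + 1) :=
          Nat.mul_le_mul_right _ h1
      _ = (q + 1) * (N + 1).choose (q + 1) := by
          have := Nat.add_one_mul_choose_eq N q
          rw [mul_comm, this, mul_comm]

/-- avoiding a set -/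
theorem DF_avoid {V : Type} [DecidableEq V] (A : Finset V) (m : ℕ) (hm : 1 ≤ m)
    (H : Finset (Finset V)) (hH : H ⊆ A.powersetCard m) (j : ℕ) (κ : ℝ) (hκ : 0 ≤ κ)
    (hk : ((j : ℝ) + 1) * m * (m - 1) ≤ κ * (#A - 1)) (b : V)
    (hb : κ * ((#A - 1).choose (m - 1) : ℝ) < (#(H.filter fun R => b ∈ R) : ℝ))
    (F : Finset V) (hF : #F ≤ (j + 1) * m) :
    ∃ R ∈ H, b ∈ R ∧ Disjoint R (F.erase b) := by
  by_contra hno
  push Not at hno
  have hsub : (H.filter fun R => b ∈ R) ⊆
      (F.erase b).biUnion fun c => H.filter fun R => b ∈ R ∧ c ∈ R := by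
    intro R hR
    have hR' := Finset.mem_filter.mp hR
    have h1 := hno R hR'.1 hR'.2
    rw [Finset.not_disjoint_iff] at h1
    obtain ⟨c, hc1, hc2⟩ := h1
    rw [Finset.mem_biUnion]
    exact ⟨c, hc2, Finset.mem_filter.mpr ⟨hR'.1, hR'.2, hc1⟩⟩
  have hcard : #(H.filter fun R => b ∈ R) ≤
      ∑ c ∈ F.erase b, #(H.filter fun R => b ∈ R ∧ c ∈ R) :=
    (Finset.card_le_card hsub).trans Finset.card_biUnion_le
  have hC0 : (0 : ℝ) ≤ ((#A - 1).choose (m - 1) : ℝ) := Nat.cast_nonneg _
  have hpos : 0 < #(H.filter fun R => b ∈ R) := by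
    have : (0 : ℝ) < (#(H.filter fun R => b ∈ R) : ℝ) :=
      lt_of_le_of_lt (mul_nonneg hκ hC0) hb
    exact_mod_cast this
  obtain ⟨R0, hR0⟩ := Finset.card_pos.mp hpos
  have hR0' := Finset.mem_filter.mp hR0
  have hR0A := Finset.mem_powersetCard.mp (hH hR0'.1)
  have hmul : #(H.filter fun R => b ∈ R) * (#A - 1) ≤
      (j + 1) * m * ((m - 1) * (#A - 1).choose (m - 1)) := by
    calc #(H.filter fun R => b ∈ R) * (#A - 1)
        ≤ (∑ c ∈ F.erase b, #(H.filter fun R => b ∈ R ∧ c ∈ R)) * (#A - 1) :=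
          Nat.mul_le_mul_right _ hcard
      _ = ∑ c ∈ F.erase b, #(H.filter fun R => b ∈ R ∧ c ∈ R) * (#A - 1) := by
          rw [Finset.sum_mul]
      _ ≤ ∑ c ∈ F.erase b, (m - 1) * (#A - 1).choose (m - 1) := by
          apply Finset.sum_le_sum
          intro c hc
          exact DF_codeg A m hm H hH b c (Finset.mem_erase.mp hc).1
      _ = #(F.erase b) * ((m - 1) * (#A - 1).choose (m - 1)) := by
          rw [Finset.sum_const, smul_eq_mul]
      _ ≤ (j + 1) * m * ((m - 1) * (#A - 1).choose (m - 1)) := by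
          apply Nat.mul_le_mul_right
          exact (Finset.card_le_card (Finset.erase_subset b F)).trans hF
  rcases Nat.lt_or_ge m 2 with h1 | h2
  · -- m = 1
    have hm1 : m = 1 := by omega
    obtain ⟨c, hc⟩ : (F.erase b).Nonempty := by
      by_contra hne
      rw [Finset.not_nonempty_iff_eq_empty] at hne
      exact hno R0 hR0'.1 hR0'.2 (by rw [hne]; exact Finset.disjoint_empty_right _)
    have hcard0 : ∑ c ∈ F.erase b, #(H.filter fun R => b ∈ R ∧ c ∈ R) = 0 := by
      apply Finset.sum_eq_zero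
      intro c hc
      rw [Finset.card_eq_zero, Finset.filter_eq_empty_iff]
      intro R hR hbc
      have h3 := (Finset.mem_powersetCard.mp (hH hR)).2
      have h4 : 1 < #R := Finset.one_lt_card.mpr ⟨b, hbc.1, c, hbc.2, (Finset.mem_erase.mp hc).1.symm⟩
      omega
    omega
  · have hA2 : 2 ≤ #A := by
      have := Finset.card_le_card hR0A.1
      omega
    have hcastA : (((#A - 1 : ℕ)) : ℝ) = (#A : ℝ) - 1 := by
      rw [Nat.cast_sub (by omega), Nat.cast_one]
    have hcastm : (((m - 1 : ℕ)) : ℝ) = (m : ℝ) - 1 := by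
      rw [Nat.cast_sub (by omega), Nat.cast_one]
    have hR : (#(H.filter fun R => b ∈ R) : ℝ) * ((#A : ℝ) - 1) ≤
        ((j : ℝ) + 1) * m * (((m : ℝ) - 1) * ((#A - 1).choose (m - 1) : ℝ)) := by
      rw [← hcastA, ← hcastm]
      exact_mod_cast hmul
    have hA1 : (0 : ℝ) < (#A : ℝ) - 1 := by
      have : (2 : ℝ) ≤ (#A : ℝ) := by exact_mod_cast hA2
      linarith
    have h3 : ((j : ℝ) + 1) * m * (((m : ℝ) - 1) * ((#A - 1).choose (m - 1) : ℝ)) ≤
        κ * ((#A : ℝ) - 1) * ((#A - 1).choose (m - 1) : ℝ) := by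
      rw [← mul_assoc]
      exact mul_le_mul_of_nonneg_right hk hC0
    have h4 : (#(H.filter fun R => b ∈ R) : ℝ) * ((#A : ℝ) - 1) ≤
        (κ * ((#A - 1).choose (m - 1) : ℝ)) * ((#A : ℝ) - 1) := by
      calc _ ≤ _ := hR
        _ ≤ _ := h3
        _ = _ := by ring
    have h5 := le_of_mul_le_mul_right h4 hA1
    linarith

theorem hDF : StDF := by
  intro V _ A m hm H hH hne
  classical
  set S : Finset (Finset (Finset V)) :=
    H.powerset.filter fun F => (F : Set (Finset V)).PairwiseDisjoint id with hS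
  have hSne : S.Nonempty := by
    refine ⟨∅, ?_⟩
    rw [hS, Finset.mem_filter]
    refine ⟨Finset.empty_mem_powerset H, ?_⟩
    simp
  obtain ⟨F, hFS, hmax⟩ := Finset.exists_max_image S (fun F => #F) hSne
  have hF' := Finset.mem_filter.mp hFS
  have hFH : F ⊆ H := Finset.mem_powerset.mp hF'.1
  have hFd : (F : Set (Finset V)).PairwiseDisjoint id := hF'.2
  have hmemS : ∀ G : Finset (Finset V), G ⊆ H → (G : Set (Finset V)).PairwiseDisjoint id → #G ≤ #F := by
    intro G h1 h2
    exact hmax G (Finset.mem_filter.mpr ⟨Finset.mem_powerset.mpr h1, h2⟩)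
  have hcardm : ∀ R ∈ H, #R = m := fun R hR => (Finset.mem_powersetCard.mp (hH hR)).2
  have hRne : ∀ R ∈ H, R.Nonempty := by
    intro R hR
    rw [← Finset.card_pos, hcardm R hR]
    exact hm
  have hj1 : 1 ≤ #F := by
    obtain ⟨h, hh⟩ := hne
    have := hmemS {h} (Finset.singleton_subset_iff.mpr hh) (by simp)
    simpa using this
  refine ⟨#F, fun i => ((F.equivFin.symm i : F) : Finset V), hj1, ?_, ?_, ?_⟩
  · intro i
    exact hFH (F.equivFin.symm i).2
  · intro i i' hii
    apply hFd (Finset.mem_coe.mpr (F.equivFin.symm i).2) (Finset.mem_coe.mpr (F.equivFin.symm i').2)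
    intro h
    apply hii
    exact F.equivFin.symm.injective (Subtype.ext h)
  · intro κ hκ hk
    set X : Finset V := F.biUnion id with hX
    have hXcard : #X ≤ #F * m := by
      apply Finset.card_biUnion_le_card_mul
      intro R hR
      exact (hcardm R (hFH hR)).le
    have hmeet : ∀ h ∈ H, ∃ b ∈ X, b ∈ h := by
      intro h hh
      by_contra hno
      push Not at hno
      have hd : ∀ R ∈ F, Disjoint h R := by
        intro R hR
        rw [Finset.disjoint_left]
        intro b hb1 hb2
        exact hno b (Finset.mem_biUnion.mpr ⟨R, hR, hb2⟩) hb1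
      have hnotin : h ∉ F := by
        intro hF
        have := hd h hF
        rw [disjoint_self] at this
        obtain ⟨b, hb⟩ := hRne h hh
        rw [this] at hb
        simp at hb
      have h1 := hmemS (insert h F) (Finset.insert_subset hh hFH) (by
        rw [Finset.coe_insert]
        apply hFd.insert
        intro R hR _
        exact hd R (Finset.mem_coe.mp hR))
      rw [Finset.card_insert_of_notMem hnotin] at h1
      omega
    set C : ℝ := ((#A - 1).choose (m - 1) : ℝ) with hC
    have hC0 : 0 ≤ C := Nat.cast_nonneg _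
    -- two rich elements in one member
    have hrich : ∀ R0 ∈ F, ∀ b ∈ R0, ∀ b' ∈ R0, b ≠ b' →
        κ * C < (#(H.filter fun R => b ∈ R) : ℝ) → κ * C < (#(H.filter fun R => b' ∈ R) : ℝ) → False := by
      intro R0 hR0 b hb b' hb' hbb hr hr'
      obtain ⟨R1, hR1, hb1, hd1⟩ := DF_avoid A m hm H hH (#F) κ hκ hk b hr X (by
        rw [add_mul]; omega)
      have hR1c := hcardm R1 hR1
      obtain ⟨R2, hR2, hb2, hd2⟩ := DF_avoid A m hm H hH (#F) κ hκ hk b' hr' (X ∪ R1) (by
        have := Finset.card_union_le X R1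
        rw [add_mul]; omega)
      have hbX : b ∈ X := Finset.mem_biUnion.mpr ⟨R0, hR0, hb⟩
      have hbX' : b' ∈ X := Finset.mem_biUnion.mpr ⟨R0, hR0, hb'⟩
      have hb1' : b' ∉ R1 := by
        intro h
        exact (Finset.disjoint_left.mp hd1 h) (Finset.mem_erase.mpr ⟨hbb.symm, hbX'⟩)
      have hd12 : Disjoint R1 R2 := by
        rw [Finset.disjoint_left]
        intro v hv1 hv2
        have hvb : v ≠ b' := fun h => hb1' (h ▸ hv1)
        exact (Finset.disjoint_left.mp hd2 hv2)
          (Finset.mem_erase.mpr ⟨hvb, Finset.mem_union_right _ hv1⟩)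
      have hnotin : ∀ R ∈ F.erase R0, b ∉ R ∧ b' ∉ R := by
        intro R hR
        have h1 := Finset.mem_erase.mp hR
        have h2 : Disjoint R R0 := hFd (Finset.mem_coe.mpr h1.2) (Finset.mem_coe.mpr hR0) h1.1
        exact ⟨fun h => Finset.disjoint_left.mp h2 h hb, fun h => Finset.disjoint_left.mp h2 h hb'⟩
      have hdR1 : ∀ R ∈ F.erase R0, Disjoint R1 R := by
        intro R hR
        rw [Finset.disjoint_left]
        intro v hv1 hv2
        have hvb : v ≠ b := fun h => (hnotin R hR).1 (h ▸ hv2)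
        exact (Finset.disjoint_left.mp hd1 hv1) (Finset.mem_erase.mpr
          ⟨hvb, Finset.mem_biUnion.mpr ⟨R, (Finset.mem_erase.mp hR).2, hv2⟩⟩)
      have hdR2 : ∀ R ∈ F.erase R0, Disjoint R2 R := by
        intro R hR
        rw [Finset.disjoint_left]
        intro v hv1 hv2
        have hvb : v ≠ b' := fun h => (hnotin R hR).2 (h ▸ hv2)
        exact (Finset.disjoint_left.mp hd2 hv1) (Finset.mem_erase.mpr
          ⟨hvb, Finset.mem_union_left _
            (Finset.mem_biUnion.mpr ⟨R, (Finset.mem_erase.mp hR).2, hv2⟩)⟩)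
      have hself : ∀ R ∈ H, ¬ Disjoint R R := by
        intro R hR h
        rw [disjoint_self] at h
        obtain ⟨v, hv⟩ := hRne R hR
        rw [h] at hv
        simp at hv
      have hn2 : R2 ∉ F.erase R0 := fun h => hself R2 hR2 (hdR2 R2 h)
      have hn1 : R1 ∉ insert R2 (F.erase R0) := by
        intro h
        rcases Finset.mem_insert.mp h with h | h
        · rw [← h] at hd12
          exact hself R1 hR1 hd12
        · exact hself R1 hR1 (hdR1 R1 h)
      have hle := hmemS (insert R1 (insert R2 (F.erase R0)))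
        (Finset.insert_subset hR1 (Finset.insert_subset hR2
          ((Finset.erase_subset R0 F).trans hFH))) (by
        rw [Finset.coe_insert, Finset.coe_insert]
        have hsub : ((F.erase R0 : Finset (Finset V)) : Set (Finset V)).PairwiseDisjoint id :=
          hFd.subset (Finset.coe_subset.mpr (Finset.erase_subset R0 F))
        have h2 : (insert R2 ((F.erase R0 : Finset (Finset V)) : Set (Finset V))).PairwiseDisjoint id := by
          apply hsub.insert
          intro R hR _
          exact hdR2 R (Finset.mem_coe.mp hR)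
        apply h2.insert
        intro R hR _
        rcases Set.mem_insert_iff.mp hR with h | h
        · rw [h]
          exact hd12
        · exact hdR1 R (Finset.mem_coe.mp h))
      rw [Finset.card_insert_of_notMem hn1, Finset.card_insert_of_notMem hn2,
        Finset.card_erase_of_mem hR0] at hle
      omega
    -- bound on one member
    have hone : ∀ R ∈ F, ∑ b ∈ R, (#(H.filter fun Q => b ∈ Q) : ℝ) ≤ (1 + m * κ) * C := by
      intro R hR
      have hRm := hcardm R (hFH hR)
      by_cases hex : ∃ b ∈ R, κ * C < (#(H.filter fun Q => b ∈ Q) : ℝ)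
      · obtain ⟨b, hb, hbr⟩ := hex
        rw [← Finset.add_sum_erase R _ hb]
        have h1 : (#(H.filter fun Q => b ∈ Q) : ℝ) ≤ C := by
          rw [hC]
          exact_mod_cast DF_deg A m hm H hH b
        have h2 : ∑ c ∈ R.erase b, (#(H.filter fun Q => c ∈ Q) : ℝ) ≤ ∑ c ∈ R.erase b, κ * C := by
          apply Finset.sum_le_sum
          intro c hc
          by_contra hlt
          push Not at hlt
          exact hrich R hR b hb c (Finset.mem_erase.mp hc).2 (Finset.mem_erase.mp hc).1.symm hbr hlt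
        rw [Finset.sum_const, nsmul_eq_mul] at h2
        have h3 : (#(R.erase b) : ℝ) ≤ m := by
          have h4 : #(R.erase b) ≤ m := by
            rw [← hRm]
            exact Finset.card_le_card (Finset.erase_subset b R)
          exact_mod_cast h4
        have h5 : (#(R.erase b) : ℝ) * (κ * C) ≤ m * (κ * C) :=
          mul_le_mul_of_nonneg_right h3 (mul_nonneg hκ hC0)
        calc _ ≤ C + m * (κ * C) := by linarith
          _ = (1 + m * κ) * C := by ring
      · push Not at hex
        have h2 : ∑ c ∈ R, (#(H.filter fun Q => c ∈ Q) : ℝ) ≤ ∑ c ∈ R, κ * C :=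
          Finset.sum_le_sum hex
        rw [Finset.sum_const, nsmul_eq_mul, hRm] at h2
        calc _ ≤ (m : ℝ) * (κ * C) := h2
          _ ≤ (1 + m * κ) * C := by nlinarith
    -- total
    have htot : #H ≤ ∑ b ∈ X, #(H.filter fun Q => b ∈ Q) := by
      have hsub : H ⊆ X.biUnion fun b => H.filter fun Q => b ∈ Q := by
        intro h hh
        obtain ⟨b, hb1, hb2⟩ := hmeet h hh
        exact Finset.mem_biUnion.mpr ⟨b, hb1, Finset.mem_filter.mpr ⟨hh, hb2⟩⟩
      exact (Finset.card_le_card hsub).trans Finset.card_biUnion_le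
    have htotR : (#H : ℝ) ≤ ∑ b ∈ X, (#(H.filter fun Q => b ∈ Q) : ℝ) := by
      exact_mod_cast htot
    have hsplit : ∑ b ∈ X, (#(H.filter fun Q => b ∈ Q) : ℝ) =
        ∑ R ∈ F, ∑ b ∈ R, (#(H.filter fun Q => b ∈ Q) : ℝ) := by
      rw [hX]
      exact Finset.sum_biUnion hFd
    calc (#H : ℝ) ≤ ∑ R ∈ F, ∑ b ∈ R, (#(H.filter fun Q => b ∈ Q) : ℝ) := by
          rw [← hsplit]; exact htotR
      _ ≤ ∑ R ∈ F, (1 + m * κ) * C := Finset.sum_le_sum hone
      _ = (#F : ℝ) * (1 + m * κ) * C := by
          rw [Finset.sum_const, nsmul_eq_mul]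
          ring

end Pool.Agent.Helper79.OT
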